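import Pool.Agent.H59.PC.Data

/-!
# Seven five-dimensional permutation cubes: `π_5(n) ≥ 7`

(1) Let all exact prime powers `p ^ v_p(n)` of `n ≥ 2` be at least `5`. Then there is a variational set
of seven five-dimensional permutation cubes of order `n`, unless `5` exactly divides `n` and `n` is
neither divisible by `7`, `11`, `13`, `17`, nor has `v_2(n) ∈ {3, 6, 7, …}` or `v_3(n) ∈ {2, 4, 5, …}`.
(The new case is `5 ∥ n`: there, products of the cubes over finite fields only give six.)

(2) The construction: a finite abelian group `G` with functions `y`, `z` such that the nine functions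
`id`, `y`, `z`, `id - y`, `id - z`, `y - z`, `id - y - z`, `id - y + z`, `id + y - z` are bijective
gives a variational set of seven five-dimensional permutation cubes of order `|G|`.

The cubes (file `Pool/Agent/H59/PC/Core.lean`) are, with `j = X0 + X1 + X2 + X3 + X4`,
`X0 + (y - z)(j)`, `X1 + (z - y)(j)`, `X2 + (y - z)(j)`, `X3 + (z - y)(j)`,
`X0 + X1 + X3 - (j + y(j) - z(j))`, `X0 + X2 + X3 - z(j)`, `X1 + X2 + X3 - y(j)`.
-/

set_option autoImplicit false

open Function

namespace Pool.Agent.Results.MP_c7a479_co.SevenCubes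

/-- `C : [n]^m → [n]` is an `m`-dimensional permutation cube of order `n`. -/
def IsPermutationCube (m n : ℕ) (C : (Fin m → Fin n) → Fin n) : Prop :=
  ∀ (i : Fin m) (x : Fin m → Fin n), Bijective (fun t : Fin n => C (update x i t))

/-- A variational set: permutation cubes, any `m` of which have a bijective joint map. -/
def IsVariationalSet (m n k : ℕ) (C : Fin k → (Fin m → Fin n) → Fin n) : Prop :=
  (∀ j, IsPermutationCube m n (C j)) ∧
    ∀ e : Fin m → Fin k, Injective e →
      Bijective (fun (x : Fin m → Fin n) (i : Fin m) => C (e i) x)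

open Pool.Agent.Results.MP_c7a479_co.VarSets (HasVarSet)

lemma conv {m n k : ℕ} (h : HasVarSet m n k) :
    ∃ C : Fin k → (Fin m → Fin n) → Fin n, IsVariationalSet m n k C := by
  obtain ⟨C, h1, h2⟩ := h
  exact ⟨C, fun j i x => h1 j x i, h2⟩

lemma six_le {r a : ℕ} (hr : r.Prime) (h5 : r ≠ 5) (h : 5 ≤ r ^ a) : 6 ≤ r ^ a := by
  rcases Nat.lt_or_ge (r ^ a) 6 with h1 | h1
  · have h2 : r ^ a = 5 := by omega
    have ha : a ≠ 0 := by rintro rfl; simp at h
    have h3 : r ∣ 5 := h2 ▸ dvd_pow_self r ha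
    exact absurd ((Nat.prime_dvd_prime_iff_eq hr (by norm_num)).1 h3) h5
  · exact h1

/-- orders all of whose exact prime powers are at least six -/
lemma big {u : ℕ} (hu : 0 < u) (h : ∀ p : ℕ, p.Prime → p ∣ u → 6 ≤ p ^ u.factorization p) :
    u = 1 ∨ HasVarSet 5 u 7 := by
  obtain ⟨-, -, -, -, -, hlow, -, -⟩ := Pool.Agent.Results.MP_c7a479_co.VarSets.result
  rcases Nat.lt_or_ge u 2 with h1 | h1
  · exact Or.inl (by omega)
  · exact Or.inr (hlow 5 u 6 (by norm_num) (by norm_num) h1 fun p hp =>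
      h p (Nat.prime_of_mem_primeFactors hp) (Nat.dvd_of_mem_primeFactors hp))

/-- products -/
lemma times {b u : ℕ} (hb : HasVarSet 5 b 7) (hu : 0 < u)
    (h : ∀ p : ℕ, p.Prime → p ∣ u → 6 ≤ p ^ u.factorization p) : HasVarSet 5 (b * u) 7 := by
  obtain ⟨-, -, -, -, -, -, hprod, -⟩ := Pool.Agent.Results.MP_c7a479_co.VarSets.result
  rcases big hu h with h1 | h1
  · rw [h1, mul_one]; exact hb
  · exact hprod 5 b u 7 hb h1

/-- orders `n` with a base order `b` dividing `n` -/
lemma base {n b : ℕ} (hb : HasVarSet 5 b 7) (hn : 0 < n) (hd : b ∣ n) (h5 : 5 ∣ b) (h25 : ¬ 25 ∣ n)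
    (hc : ∀ p : ℕ, p.Prime → p ∣ n → 5 ≤ p ^ n.factorization p)
    (hr : ∀ r : ℕ, r.Prime → r ∣ b → r ≠ 5 → 6 ≤ r ∨ n.factorization r = b.factorization r ∨
      6 ≤ r ^ (n.factorization r - b.factorization r)) :
    HasVarSet 5 n 7 := by
  obtain ⟨u, rfl⟩ := hd
  have hu : 0 < u := by
    rcases Nat.eq_zero_or_pos u with h0 | h0
    · subst h0; simp at hn
    · exact h0
  have hb0 : 0 < b := by
    rcases Nat.eq_zero_or_pos b with h0 | h0
    · subst h0; simp at hn
    · exact h0
  refine times hb hu fun r hrp hru => ?_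
  have hf : (b * u).factorization r = b.factorization r + u.factorization r := by
    rw [Nat.factorization_mul hb0.ne' hu.ne']; rfl
  have hu1 : 1 ≤ u.factorization r := hrp.factorization_pos_of_dvd hu.ne' hru
  have hr5 : r ≠ 5 := by
    rintro rfl
    exact h25 (by
      obtain ⟨s, rfl⟩ := h5
      obtain ⟨t, rfl⟩ := hru
      exact ⟨s * t, by ring⟩)
  by_cases hrb : r ∣ b
  · rcases hr r hrp hrb hr5 with h6 | h6 | h6
    · calc 6 ≤ r := h6
        _ = r ^ 1 := (pow_one r).symm
        _ ≤ r ^ u.factorization r := Nat.pow_le_pow_right hrp.pos hu1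
    · rw [hf] at h6; omega
    · rw [hf, Nat.add_sub_cancel_left] at h6; exact h6
  · have h0 : b.factorization r = 0 := Nat.factorization_eq_zero_of_not_dvd hrb
    have h1 := hc r hrp (hru.mul_left b)
    rw [hf, h0, zero_add] at h1
    exact six_le hrp hr5 h1

/-- the order `5 p` -/
lemma base_prime {n p : ℕ} (hp : p.Prime) (h6 : 6 ≤ p) (hb : HasVarSet 5 (5 * p) 7) (hn : 0 < n)
    (hpn : p ∣ n) (h5 : 5 ∣ n) (h25 : ¬ 25 ∣ n)
    (hc : ∀ p : ℕ, p.Prime → p ∣ n → 5 ≤ p ^ n.factorization p) : HasVarSet 5 n 7 := by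
  refine base hb hn ?_ (Dvd.intro _ rfl) h25 hc fun r hr hrb hr5 => ?_
  · exact Nat.Coprime.mul_dvd_of_dvd_of_dvd
      ((Nat.coprime_primes (by norm_num) hp).2 (by omega)) h5 hpn
  · rcases (Nat.Prime.dvd_mul hr).1 hrb with h | h
    · exact absurd ((Nat.prime_dvd_prime_iff_eq hr (by norm_num)).1 h) hr5
    · rw [(Nat.prime_dvd_prime_iff_eq hr hp).1 h]; exact Or.inl h6

/-- the order `5 p ^ a`, `b = p ^ a * 5` -/
lemma base_pow {n p a : ℕ} (hp : p.Prime) (hp5 : p ≠ 5) (ha : 1 ≤ a)
    (hb : HasVarSet 5 (p ^ a * 5) 7) (hn : 0 < n)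
    (hpa : n.factorization p = a ∨ (a ≤ n.factorization p ∧ 6 ≤ p ^ (n.factorization p - a)))
    (h5 : 5 ∣ n) (h25 : ¬ 25 ∣ n)
    (hc : ∀ p : ℕ, p.Prime → p ∣ n → 5 ≤ p ^ n.factorization p) : HasVarSet 5 n 7 := by
  have hcop : Nat.Coprime (p ^ a) 5 :=
    Nat.Coprime.pow_left a ((Nat.coprime_primes hp (by norm_num)).2 hp5)
  have hle : a ≤ n.factorization p := by
    rcases hpa with h | h
    · exact h.ge
    · exact h.1
  have hpn : p ^ a ∣ n := (hp.pow_dvd_iff_le_factorization hn.ne').2 hle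
  have hfb : (p ^ a * 5).factorization p = a := by
    rw [Nat.factorization_mul (pow_pos hp.pos a).ne' (by norm_num), Finsupp.add_apply,
      hp.factorization_pow, Finsupp.single_eq_same,
      Nat.factorization_eq_zero_of_not_dvd fun h =>
        hp5 ((Nat.prime_dvd_prime_iff_eq hp (by norm_num)).1 h), add_zero]
  refine base hb hn (Nat.Coprime.mul_dvd_of_dvd_of_dvd hcop hpn h5) (Dvd.intro_left _ rfl) h25 hc
    fun r hr hrb hr5 => ?_
  have h3 : r = p := by
    rcases (Nat.Prime.dvd_mul hr).1 hrb with h | h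
    · exact (Nat.prime_dvd_prime_iff_eq hr hp).1 (hr.dvd_of_dvd_pow h)
    · exact absurd ((Nat.prime_dvd_prime_iff_eq hr (by norm_num)).1 h) hr5
  subst h3
  rw [hfb]
  rcases hpa with h | h
  · exact Or.inr (Or.inl h)
  · exact Or.inr (Or.inr h.2)

theorem result :
    (∀ n : ℕ, 2 ≤ n → (∀ p : ℕ, p.Prime → p ∣ n → 5 ≤ p ^ n.factorization p) →
      (5 ∣ n → 25 ∣ n ∨ 7 ∣ n ∨ 11 ∣ n ∨ 13 ∣ n ∨ 17 ∣ n ∨
        (n.factorization 2 = 3 ∨ 6 ≤ n.factorization 2) ∨
        (n.factorization 3 = 2 ∨ 4 ≤ n.factorization 3)) →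
      ∃ C : Fin 7 → (Fin 5 → Fin n) → Fin n, IsVariationalSet 5 n 7 C) ∧
    (∀ (G : Type) [AddCommGroup G] [Finite G] (y z : G → G), Bijective y → Bijective z →
      (Bijective fun j => j - y j) → (Bijective fun j => j - z j) →
      (Bijective fun j => y j - z j) → (Bijective fun j => j - y j - z j) →
      (Bijective fun j => j - y j + z j) → (Bijective fun j => j + y j - z j) →
      ∃ C : Fin 7 → (Fin 5 → Fin (Nat.card G)) → Fin (Nat.card G),
        IsVariationalSet 5 (Nat.card G) 7 C) := by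
  refine ⟨fun n hn hc h => conv ?_, fun G _ _ y z h1 h2 h3 h4 h5 h6 h7 h8 => conv ?_⟩
  · by_cases h5 : 5 ∣ n ∧ ¬ 25 ∣ n
    · obtain ⟨h5, h25⟩ := h5
      have hn0 : 0 < n := by omega
      rcases h h5 with h' | h' | h' | h' | h' | h' | h'
      · exact absurd h' h25
      · exact base_prime (by norm_num) (by norm_num) Pool.Agent.H59.PC.base_35 hn0 h' h5 h25 hc
      · exact base_prime (by norm_num) (by norm_num) Pool.Agent.H59.PC.base_55 hn0 h' h5 h25 hc
      · exact base_prime (by norm_num) (by norm_num) Pool.Agent.H59.PC.base_65 hn0 h' h5 h25 hc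
      · exact base_prime (by norm_num) (by norm_num) Pool.Agent.H59.PC.base_85 hn0 h' h5 h25 hc
      · refine base_pow (p := 2) (a := 3) (by norm_num) (by norm_num) (by norm_num)
          Pool.Agent.H59.PC.base_40 hn0 ?_ h5 h25 hc
        rcases h' with h' | h'
        · exact Or.inl h'
        · refine Or.inr ⟨by omega, ?_⟩
          calc 6 ≤ 2 ^ 3 := by norm_num
            _ ≤ 2 ^ (n.factorization 2 - 3) := Nat.pow_le_pow_right (by norm_num) (by omega)
      · refine base_pow (p := 3) (a := 2) (by norm_num) (by norm_num) (by norm_num)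
          Pool.Agent.H59.PC.base_45 hn0 ?_ h5 h25 hc
        rcases h' with h' | h'
        · exact Or.inl h'
        · refine Or.inr ⟨by omega, ?_⟩
          calc 6 ≤ 3 ^ 2 := by norm_num
            _ ≤ 3 ^ (n.factorization 3 - 2) := Nat.pow_le_pow_right (by norm_num) (by omega)
    · rcases big (by omega : 0 < n) (fun p hp hpn => by
        by_cases hp5 : p = 5
        · subst hp5
          have h25 : 25 ∣ n := by
            by_contra hcon
            exact h5 ⟨hpn, hcon⟩
          have a1 : 2 ≤ n.factorization 5 :=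
            (Nat.prime_five.pow_dvd_iff_le_factorization (by omega)).1 (by norm_num; exact h25)
          calc 6 ≤ 5 ^ 2 := by norm_num
            _ ≤ 5 ^ n.factorization 5 := Nat.pow_le_pow_right (by norm_num) a1
        · exact six_le hp hp5 (hc p hp hpn)) with h' | h'
      · omega
      · exact h'
  · exact Pool.Agent.H59.PC.hasVarSet ⟨h1.injective, h2.injective, h3.injective, h4.injective,
      h5.injective, h6.injective, h7.injective, h8.injective⟩

end Pool.Agent.Results.MP_c7a479_co.SevenCubes
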