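import Pool.Agent.H58.DM.Data6
import Pool.Agent.H58.DM.Even6

/-!
# Six three-dimensional permutation cubes: `π_3(n) ≥ 6`

There is a variational set of six three-dimensional permutation cubes of order `n` for every
`n ≥ 4`, `n` not `2` modulo `4`, with the possible exception of the numbers `n = 3 w`, where `w` is
odd, prime to `3` and has no prime factor `≤ 19`. The general lower bound, by products of fields, is
`π_3(n) ≥ 4` for the orders `n` which are divisible by `3` but not by `9`, because `π_3(3) = 4`.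

The construction. Let `R` be a finite commutative ring, `c` and `c - 1` units of `R`, and let `p`,
`q`, `r`, `g` be functions on `R` such that `p`, `q`, `r` and the eight functions
`g + [p] + [q] + [r]` (any of the three summands may be missing) are permutations of `R`. With the
parameters `(j, a, b)` in `R³` let
`X₀ = a + c b - c (g(j) + r(j))`, `X₁ = X₀ - c p(j)`, `X₂ = a`
be the coordinates. Then `a + g(j)`, `a + g(j) + p(j)`, `b`, `b + q(j)`, `a + b`, `a + b - r(j)` are
six permutation cubes, any three of which form a variational cube: each of the 39 conditions follows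
from one of the eleven permutations.

For `n = 3 w` odd, `e = n / 3`, such systems in `ℤ/n` are found from a single function `P` as `P j`,
`P (j - e)`, `P (j + e)` and `g j = j`; the eleven conditions become four (`Sys.cyc`).
-/

set_option autoImplicit false

open Function

namespace Pool.Agent.Results.MP_c7a479_co.SixCubes

/-- `C : [n]^m → [n]` is an `m`-dimensional permutation cube of order `n`. -/
def IsPermutationCube (m n : ℕ) (C : (Fin m → Fin n) → Fin n) : Prop :=
  ∀ (i : Fin m) (x : Fin m → Fin n), Bijective (fun t : Fin n => C (update x i t))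

/-- A variational set: permutation cubes, any `m` of which have a bijective joint map. -/
def IsVariationalSet (m n k : ℕ) (C : Fin k → (Fin m → Fin n) → Fin n) : Prop :=
  (∀ j, IsPermutationCube m n (C j)) ∧
    ∀ e : Fin m → Fin k, Injective e →
      Bijective (fun (x : Fin m → Fin n) (i : Fin m) => C (e i) x)

open Pool.Agent.Results.MP_c7a479_co.VarSets (HasVarSet hasVarSet_general hasVarSet_even
  HasVarSet.mono HasVarSet.mul)

lemma conv {m n k : ℕ} (h : HasVarSet m n k) :
    ∃ C : Fin k → (Fin m → Fin n) → Fin n, IsVariationalSet m n k C := by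
  obtain ⟨C, h1, h2⟩ := h
  exact ⟨C, fun j i x => h1 j x i, h2⟩

lemma one : HasVarSet 3 1 6 := by
  refine ⟨fun _ _ => 0, ⟨fun j x i => ⟨fun a b _ => Subsingleton.elim _ _,
    fun b => ⟨0, Subsingleton.elim _ _⟩⟩, fun s _ => ⟨fun a b _ => Subsingleton.elim _ _,
    fun b => ⟨fun _ => 0, Subsingleton.elim _ _⟩⟩⟩⟩

/-- odd orders -/
lemma odd_part {u : ℕ} (hu : 0 < u) (h2 : ¬ 2 ∣ u) (h3 : 3 ∣ u → 9 ∣ u) : HasVarSet 3 u 6 := by
  obtain ⟨-, -, -, -, -, hlow, -, -⟩ := Pool.Agent.Results.MP_c7a479_co.VarSets.result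
  rcases Nat.lt_or_ge u 2 with h | h
  · have : u = 1 := by omega
    rw [this]; exact one
  · refine hlow 3 u 5 (le_refl 3) (by norm_num) h fun p hp => ?_
    have hpp := Nat.prime_of_mem_primeFactors hp
    have hpd := Nat.dvd_of_mem_primeFactors hp
    have h1 : 1 ≤ u.factorization p := hpp.factorization_pos_of_dvd (by omega) hpd
    rcases Nat.lt_or_ge p 5 with h4 | h4
    · have hp2 := hpp.two_le
      have h35 : p = 3 := by
        interval_cases p
        · exact absurd hpd h2
        · rfl
        · exact absurd hpp (by norm_num)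
      subst h35
      have hle : 2 ≤ u.factorization 3 := by
        rw [← hpp.pow_dvd_iff_le_factorization (by omega)]
        exact h3 hpd
      calc 5 ≤ 3 ^ 2 := by norm_num
        _ ≤ 3 ^ u.factorization 3 := Nat.pow_le_pow_right (by omega) hle
    · calc 5 ≤ p := h4
        _ = p ^ 1 := (pow_one p).symm
        _ ≤ p ^ u.factorization p := Nat.pow_le_pow_right (by omega) h1

/-- orders all of whose exact prime powers are at least four -/
lemma part {u : ℕ} (hu : 0 < u) (h2 : 2 ∣ u → 4 ∣ u) (h3 : 3 ∣ u → 9 ∣ u) : HasVarSet 3 u 6 := by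
  by_cases h : 2 ∣ u
  · obtain ⟨a, w, hw, rfl⟩ := Nat.exists_eq_two_pow_mul_odd (n := u) (by omega)
    have hw2 : ¬ 2 ∣ w := hw.not_two_dvd_nat
    have hw0 : 0 < w := hw.pos
    have ha : 2 ≤ a := by
      by_contra hcon
      have h4 := h2 h
      interval_cases a
      · rw [pow_zero, one_mul] at h; exact hw2 h
      · rw [pow_one] at h4; exact hw2 (by omega)
    have hc : Nat.Coprime 9 (2 ^ a) := by
      apply Nat.Coprime.pow_right; norm_num
    have h5 : HasVarSet 3 w 6 := odd_part hw0 hw2 fun h6 => by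
      exact hc.dvd_of_dvd_mul_left (h3 (h6.mul_left _))
    have h7 : 6 ≤ 2 ^ a + 2 := by
      have : 2 ^ 2 ≤ 2 ^ a := Nat.pow_le_pow_right (by norm_num) ha
      omega
    exact HasVarSet.mul ((hasVarSet_even ha).mono h7) h5
  · exact odd_part hu h h3

/-- products -/
lemma times {b u : ℕ} (hb : HasVarSet 3 b 6) (hu : 0 < u) (h2 : 2 ∣ u → 4 ∣ u)
    (h3 : 3 ∣ u → 9 ∣ u) : HasVarSet 3 (b * u) 6 :=
  HasVarSet.mul hb (part hu h2 h3)

lemma odd_base {p : ℕ} (hp : p.Prime) (h2 : p ≠ 2) (h3 : p ≠ 3) (h : p ≤ 19) :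
    HasVarSet 3 (3 * p) 6 := by
  have h4 : 5 ≤ p := by
    have := hp.two_le
    rcases Nat.lt_or_ge p 5 with h | h
    · interval_cases p
      · exact absurd rfl h2
      · exact absurd rfl h3
      · exact absurd hp (by norm_num)
    · exact h
  interval_cases p
  all_goals first
    | exact Pool.Agent.H58.DM.Six.base_15
    | exact Pool.Agent.H58.DM.Six.base_21
    | exact Pool.Agent.H58.DM.Six.base_33
    | exact Pool.Agent.H58.DM.Six.base_39
    | exact Pool.Agent.H58.DM.Six.base_51
    | exact Pool.Agent.H58.DM.Six.base_57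
    | exact absurd hp (by norm_num)

lemma d12 {n : ℕ} (h : 2 ∣ n) (h3 : 3 ∣ n) (h2 : n % 4 ≠ 2) : 12 ∣ n := by omega

lemma d24 {n : ℕ} (h : 12 ∣ n) (h8 : 8 ∣ n) : 24 ∣ n := by omega

lemma e24 {u : ℕ} (h : ¬ 16 ∣ 24 * u) (h9 : ¬ 9 ∣ 24 * u) : (2 ∣ u → 4 ∣ u) ∧ (3 ∣ u → 9 ∣ u) := by
  constructor <;> intro h' <;> omega

lemma e12 {u : ℕ} (h : ¬ (8 ∣ 12 * u ∧ ¬ 16 ∣ 12 * u)) (h9 : ¬ 9 ∣ 12 * u) :
    (2 ∣ u → 4 ∣ u) ∧ (3 ∣ u → 9 ∣ u) := by
  constructor <;> intro h' <;> omega

/-- **Six permutation cubes of dimension three.** (1) For every `n ≥ 4`, `n` not `2` modulo `4`,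
there is a variational set of six three-dimensional permutation cubes of order `n`, provided that
`3` does not divide `n`, or `9` divides `n`, or a prime `p ≤ 19`, `p ≠ 3`, divides `n`.
(2) There is such a set of order `|R|` for every finite commutative ring `R` which has units `c`,
`c - 1` and functions `p`, `q`, `r`, `g` such that `p`, `q`, `r` and the eight sums of `g` and some
of `p`, `q`, `r` are bijective. -/
theorem result :
    (∀ n : ℕ, 4 ≤ n → n % 4 ≠ 2 →
      (¬ 3 ∣ n ∨ 9 ∣ n ∨ ∃ p : ℕ, p.Prime ∧ p ≠ 3 ∧ p ≤ 19 ∧ p ∣ n) →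
      ∃ C : Fin 6 → (Fin 3 → Fin n) → Fin n, IsVariationalSet 3 n 6 C) ∧
    (∀ (R : Type) [CommRing R] [Finite R] (c : R), IsUnit c → IsUnit (c - 1) →
      ∀ p q r g : R → R, Bijective p → Bijective q → Bijective r → Bijective g →
        (Bijective fun j => g j + p j) → (Bijective fun j => g j + q j) →
        (Bijective fun j => g j + r j) → (Bijective fun j => g j + p j + q j) →
        (Bijective fun j => g j + p j + r j) → (Bijective fun j => g j + q j + r j) →
        (Bijective fun j => g j + p j + q j + r j) →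
        ∃ C : Fin 6 → (Fin 3 → Fin (Nat.card R)) → Fin (Nat.card R),
          IsVariationalSet 3 (Nat.card R) 6 C) := by
  refine ⟨?_, ?_⟩
  · intro n h4 h2 h3
    apply conv
    by_cases h39 : ¬ 3 ∣ n ∨ 9 ∣ n
    · clear h3
      exact part (by omega) (by omega) (by omega)
    · obtain ⟨p, hp, hp3, hp19, hpn⟩ := (h3.resolve_left (by tauto)).resolve_left (by tauto)
      have h3n : 3 ∣ n := by tauto
      have h9n : ¬ 9 ∣ n := by tauto
      have hn0 : 0 < n := lt_of_lt_of_le (by norm_num) h4
      by_cases hev : 2 ∣ n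
      · have h12 : 12 ∣ n := d12 hev h3n h2
        by_cases h8 : 8 ∣ n ∧ ¬ 16 ∣ n
        · obtain ⟨u, rfl⟩ : 24 ∣ n := d24 h12 h8.1
          have e := e24 h8.2 h9n
          exact times Pool.Agent.H58.DM.Six.base_24
            (Nat.pos_of_ne_zero (by rintro rfl; simp at hn0)) e.1 e.2
        · obtain ⟨u, rfl⟩ := h12
          have e := e12 h8 h9n
          exact times Pool.Agent.H58.DM.Six.base_12
            (Nat.pos_of_ne_zero (by rintro rfl; simp at hn0)) e.1 e.2
      · have hp2 : p ≠ 2 := by rintro rfl; exact hev hpn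
        have hco : Nat.Coprime 3 p := (Nat.coprime_primes Nat.prime_three hp).2 hp3.symm
        obtain ⟨u, rfl⟩ := hco.mul_dvd_of_dvd_of_dvd h3n hpn
        refine times (odd_base hp hp2 hp3 hp19) ?_ (fun h => ?_) (fun h => ?_)
        · exact Nat.pos_of_ne_zero (by rintro rfl; simp at hn0)
        · exact absurd (h.mul_left (3 * p)) hev
        · exfalso
          apply h9n
          obtain ⟨v, rfl⟩ := h
          exact ⟨p * v, by ring⟩
  · intro R _ _ c hc hd p q r g h1 h2 h3 h4 h5 h6 h7 h8 h9 h10 h11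
    have : Fintype R := Fintype.ofFinite R
    have h := Pool.Agent.H58.DM.Six.hasVarSet (c := c)
      (⟨h1.1, h2.1, h3.1, h4.1, h5.1, h6.1, h7.1, h8.1, h9.1, h10.1, h11.1⟩ :
        Pool.Agent.H58.DM.Six.Sys R p q r g)
      (fun u v h => hc.mul_left_cancel h) (fun u v h => hd.mul_left_cancel h)
    rw [← Nat.card_eq_fintype_card] at h
    exact conv h

end Pool.Agent.Results.MP_c7a479_co.SixCubes
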