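import Pool.Agent.H58.DM.Data4

/-!
# Six four-dimensional permutation cubes: `π_4(n) ≥ 6`

There is a variational set of six four-dimensional permutation cubes of order `n` for every `n ≥ 5`
which is not `2` modulo `4` and not divisible by `3` exactly once, provided that `n` is not `4`
modulo `8` or has a prime factor `5`, `7` or `13`. The case `n = 4 w`, `w` odd, is new: the general
lower bound, by products of fields, is `π_4(n) ≥ 5` for these orders, because `π_4(4) = 5`.

The construction. Let `R` be a finite commutative ring, `c` and `c - 1` units of `R`, and let `F`,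
`E` be functions on `R` such that `F`, `F - id`, `F - c id`, `E`, `E - id`, `E - c id` and `F - E`
are permutations of `R`. With the parameters `(j, a, b, d)` in `R⁴` let
`X₀ = d - j`, `X₁ = b - j`, `X₂ = a - c d`, `X₃ = a - b`
be the coordinates. Then `a - E(j)`, `a - F(j)`, `b`, `d`, `b + d - j`, `a - b - c d` are six
permutation cubes, any four of which form a variational cube: each of the 40 conditions follows from
one of the seven permutations (or from `j` itself). Such `F`, `E` are given by tables for the products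
of the field with four elements and the field with `5`, `7` or `13` elements.
-/

set_option autoImplicit false

open Function

namespace Pool.Agent.Results.MP_c7a479_co.SixCubesDimFour

/-- `C : [n]^m → [n]` is an `m`-dimensional permutation cube of order `n`. -/
def IsPermutationCube (m n : ℕ) (C : (Fin m → Fin n) → Fin n) : Prop :=
  ∀ (i : Fin m) (x : Fin m → Fin n), Bijective (fun t : Fin n => C (update x i t))

/-- A variational set: permutation cubes, any `m` of which have a bijective joint map. -/
def IsVariationalSet (m n k : ℕ) (C : Fin k → (Fin m → Fin n) → Fin n) : Prop :=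
  (∀ j, IsPermutationCube m n (C j)) ∧
    ∀ e : Fin m → Fin k, Injective e →
      Bijective (fun (x : Fin m → Fin n) (i : Fin m) => C (e i) x)

open Pool.Agent.Results.MP_c7a479_co.VarSets (HasVarSet HasVarSet.mul)

lemma conv {m n k : ℕ} (h : HasVarSet m n k) :
    ∃ C : Fin k → (Fin m → Fin n) → Fin n, IsVariationalSet m n k C := by
  obtain ⟨C, h1, h2⟩ := h
  exact ⟨C, fun j i x => h1 j x i, h2⟩

lemma one : HasVarSet 4 1 6 := by
  refine ⟨fun _ _ => 0, ⟨fun j x i => ⟨fun a b _ => Subsingleton.elim _ _,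
    fun b => ⟨0, Subsingleton.elim _ _⟩⟩, fun s _ => ⟨fun a b _ => Subsingleton.elim _ _,
    fun b => ⟨fun _ => 0, Subsingleton.elim _ _⟩⟩⟩⟩

/-- orders all of whose exact prime powers are at least five -/
lemma part {u : ℕ} (hu : 0 < u) (h2 : 2 ∣ u → 8 ∣ u) (h3 : 3 ∣ u → 9 ∣ u) : HasVarSet 4 u 6 := by
  obtain ⟨-, -, -, -, -, hlow, -, -⟩ := Pool.Agent.Results.MP_c7a479_co.VarSets.result
  rcases Nat.lt_or_ge u 2 with h | h
  · have : u = 1 := by omega
    rw [this]; exact one
  · refine hlow 4 u 5 (by norm_num) (by norm_num) h fun p hp => ?_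
    have hpp := Nat.prime_of_mem_primeFactors hp
    have hpd := Nat.dvd_of_mem_primeFactors hp
    have h1 : 1 ≤ u.factorization p := hpp.factorization_pos_of_dvd (by omega) hpd
    rcases Nat.lt_or_ge p 5 with h4 | h4
    · have hp2 := hpp.two_le
      have h23 : p = 2 ∨ p = 3 := by
        interval_cases p
        · exact Or.inl rfl
        · exact Or.inr rfl
        · exact absurd hpp (by norm_num)
      rcases h23 with rfl | rfl
      · have hle : 3 ≤ u.factorization 2 := by
          rw [← hpp.pow_dvd_iff_le_factorization (by omega)]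
          exact h2 hpd
        calc 5 ≤ 2 ^ 3 := by norm_num
          _ ≤ 2 ^ u.factorization 2 := Nat.pow_le_pow_right (by omega) hle
      · have hle : 2 ≤ u.factorization 3 := by
          rw [← hpp.pow_dvd_iff_le_factorization (by omega)]
          exact h3 hpd
        calc 5 ≤ 3 ^ 2 := by norm_num
          _ ≤ 3 ^ u.factorization 3 := Nat.pow_le_pow_right (by omega) hle
    · calc 5 ≤ p := h4
        _ = p ^ 1 := (pow_one p).symm
        _ ≤ p ^ u.factorization p := Nat.pow_le_pow_right (by omega) h1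

lemma cof20 {u : ℕ} (h8 : 20 * u % 8 = 4) (h3 : ¬ 3 ∣ 20 * u ∨ 9 ∣ 20 * u) :
    0 < u ∧ (2 ∣ u → 8 ∣ u) ∧ (3 ∣ u → 9 ∣ u) := by
  refine ⟨?_, ?_, ?_⟩ <;> omega

lemma cof28 {u : ℕ} (h8 : 28 * u % 8 = 4) (h3 : ¬ 3 ∣ 28 * u ∨ 9 ∣ 28 * u) :
    0 < u ∧ (2 ∣ u → 8 ∣ u) ∧ (3 ∣ u → 9 ∣ u) := by
  refine ⟨?_, ?_, ?_⟩ <;> omega

lemma cof52 {u : ℕ} (h8 : 52 * u % 8 = 4) (h3 : ¬ 3 ∣ 52 * u ∨ 9 ∣ 52 * u) :
    0 < u ∧ (2 ∣ u → 8 ∣ u) ∧ (3 ∣ u → 9 ∣ u) := by
  refine ⟨?_, ?_, ?_⟩ <;> omega

/-- **Six permutation cubes of dimension four.** (1) For every `n ≥ 5` there is a variational set of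
six four-dimensional permutation cubes of order `n`, provided that `n` is not `2` modulo `4`, that
`3` does not divide `n` or `9` divides `n`, and that `n` is not `4` modulo `8` or one of `5`, `7`,
`13` divides `n`.
(2) There is such a set of order `|R|` for every finite commutative ring `R` which has units `c`,
`c - 1` and functions `F`, `E` such that `F`, `F - id`, `F - c id`, `E`, `E - id`, `E - c id` and
`F - E` are bijective. -/
theorem result :
    (∀ n : ℕ, 5 ≤ n → n % 4 ≠ 2 → (¬ 3 ∣ n ∨ 9 ∣ n) → (n % 8 ≠ 4 ∨ 5 ∣ n ∨ 7 ∣ n ∨ 13 ∣ n) →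
      ∃ C : Fin 6 → (Fin 4 → Fin n) → Fin n, IsVariationalSet 4 n 6 C) ∧
    (∀ (R : Type) [CommRing R] [Finite R] (c : R), IsUnit c → IsUnit (c - 1) →
      ∀ F E : R → R, Bijective F → (Bijective fun j => F j - j) → (Bijective fun j => F j - c * j) →
        Bijective E → (Bijective fun j => E j - j) → (Bijective fun j => E j - c * j) →
        (Bijective fun j => F j - E j) →
        ∃ C : Fin 6 → (Fin 4 → Fin (Nat.card R)) → Fin (Nat.card R),
          IsVariationalSet 4 (Nat.card R) 6 C) := by
  refine ⟨?_, ?_⟩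
  · intro n h5 h2 h3 h4
    apply conv
    by_cases h8 : n % 8 = 4
    · rcases h4.resolve_left (fun h => h h8) with h | h | h
      · obtain ⟨u, rfl⟩ : 20 ∣ n := by omega
        obtain ⟨a, b, c⟩ := cof20 h8 h3
        exact HasVarSet.mul Pool.Agent.H58.DM.Four.base_20 (part a b c)
      · obtain ⟨u, rfl⟩ : 28 ∣ n := by omega
        obtain ⟨a, b, c⟩ := cof28 h8 h3
        exact HasVarSet.mul Pool.Agent.H58.DM.Four.base_28 (part a b c)
      · obtain ⟨u, rfl⟩ : 52 ∣ n := by omega
        obtain ⟨a, b, c⟩ := cof52 h8 h3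
        exact HasVarSet.mul Pool.Agent.H58.DM.Four.base_52 (part a b c)
    · exact part (by omega) (by omega) (by omega)
  · intro R _ _ c hc hd F E h1 h2 h3 h4 h5 h6 h7
    have : Fintype R := Fintype.ofFinite R
    have h := Pool.Agent.H58.DM.Four.hasVarSet (c := c)
      (⟨h1.1, h2.1, h3.1, h4.1, h5.1, h6.1, h7.1⟩ : Pool.Agent.H58.DM.Four.Sys R c F E)
      (fun u v h => hc.mul_left_cancel h) (fun u v h => hd.mul_left_cancel h)
    rw [← Nat.card_eq_fintype_card] at h
    exact conv h

end Pool.Agent.Results.MP_c7a479_co.SixCubesDimFour
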